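import Mathlib

/-!
# An integer point on the cubic surface `y^2 z + y z^2 = 3 x^3 + x^2 + x - 1`

The point was found by a computer search: if `m` is the smallest of `|y|`, `|z|`, `|y+z|`, then `x`
is a root of `3 x^3 + x^2 + x - 1` modulo `m`, and `m^4 + 4 m (± f(x))` is a square. All roots modulo
`m = a p` (`p` a prime factor of `m`) were listed with tables of the roots modulo `a` and `p`; modulo `18`
only `x = 3` and `x = 11` are possible, and the sign is fixed modulo `3`. Here
`m = 838276125548 = |y + z|`.
-/

namespace Pool.Agent.Results.MP_49f43a_nt.IntegerPoint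

/-- The equation `y^2 z + y z^2 = 3 x^3 + x^2 + x - 1` has an integer solution. -/
theorem result : ∃ x y z : ℤ, x = -783954692511 ∧ y = -959250043523 ∧ z = 1797526169071 ∧
    y ^ 2 * z + y * z ^ 2 = 3 * x ^ 3 + x ^ 2 + x - 1 :=
  ⟨_, _, _, rfl, rfl, rfl, by norm_num⟩

end Pool.Agent.Results.MP_49f43a_nt.IntegerPoint
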